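import Pool.Agent.Helper65.LG.Defs

set_option autoImplicit false

open Finset Filter Topology

namespace Pool.Agent.Helper68.LGC

open Pool.Agent.Helper65.LG

lemma dd_pos (G : GMap) {i : ℕ} (hi : i < G.d) : 1 ≤ dd G i := by
  unfold dd
  apply Nat.pos_of_ne_zero
  intro h
  exact Int.natAbs_ne_zero.2 (G.hm i hi) (Nat.eq_zero_of_gcd_eq_zero_left h)

lemma dd_le (G : GMap) {i : ℕ} (hi : i < G.d) : (dd G i : ℝ) ≤ |(G.m i : ℝ)| := by
  have h1 : dd G i ∣ (G.m i).natAbs := Nat.gcd_dvd_left _ _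
  have h2 : dd G i ≤ (G.m i).natAbs := Nat.le_of_dvd (Nat.pos_of_ne_zero (Int.natAbs_ne_zero.2 (G.hm i hi))) h1
  have h3 : ((G.m i).natAbs : ℝ) = |(G.m i : ℝ)| := by
    rw [Nat.cast_natAbs, Int.cast_abs]
  rw [← h3]
  exact_mod_cast h2

lemma f0_nonneg (G : GMap) (B : ℕ × ℕ) : 0 ≤ f0 G B := by
  have hi : B.1 % G.d < G.d := Nat.mod_lt _ (by have := G.hd; omega)
  unfold f0
  apply Real.log_nonneg
  have h1 : (0 : ℝ) < dd G (B.1 % G.d) := by exact_mod_cast dd_pos G hi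
  rw [le_div_iff₀ h1, one_mul]
  exact dd_le G hi

lemma f1_eq (G : GMap) (B : ℕ × ℕ) : f1 G B = f0 G B - f2 G B := by
  have hi : B.1 % G.d < G.d := Nat.mod_lt _ (by have := G.hd; omega)
  have h1 : (dd G (B.1 % G.d) : ℝ) ≠ 0 := by
    have := dd_pos G hi
    positivity
  have h2 : (G.d : ℝ) ≠ 0 := by
    have := G.hd
    positivity
  have h3 : |(G.m (B.1 % G.d) : ℝ)| ≠ 0 := by
    rw [abs_ne_zero]
    exact_mod_cast G.hm _ hi
  unfold f1 f0 f2
  rw [Real.log_div h3 h2, Real.log_div h3 h1, Real.log_div h2 h1]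
  ring

/-- the means -/
theorem L7 : S_mean := by
  intro G C ρ _ hρ
  constructor
  · unfold mean
    exact Finset.sum_nonneg fun B hB => mul_nonneg (hρ.nonneg B hB) (f0_nonneg G B)
  · unfold mean
    rw [← Finset.sum_sub_distrib]
    apply Finset.sum_congr rfl
    intro B _
    rw [f1_eq]
    ring

end Pool.Agent.Helper68.LGC
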