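import Pool.Agent.Helper65.LG.Base

set_option autoImplicit false

open Finset Filter Topology

namespace Pool.Agent.Helper68.LGC

open Pool.Agent.Helper65.LG

lemma rpow_le_of_log {x y : ℤ} (θ : ℝ) (hx : 0 < |(x : ℝ)|) (hy : y ≠ 0)
    (h : θ * Real.log |(x : ℝ)| ≤ Real.log |(y : ℝ)|) : |(x : ℝ)| ^ θ ≤ |(y : ℝ)| := by
  have hy' : 0 < |(y : ℝ)| := by
    rw [abs_pos]
    exact_mod_cast hy
  rw [Real.rpow_def_of_pos hx, mul_comm]
  calc Real.exp (θ * Real.log |(x : ℝ)|) ≤ Real.exp (Real.log |(y : ℝ)|) := Real.exp_le_exp.2 h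
    _ = |(y : ℝ)| := Real.exp_log hy'

/-- L8, second half -/
theorem L8b (hlaw : S_law) (hmean : S_mean) (G : GMap) (C : Finset (ℕ × ℕ)) (ρ : ℕ × ℕ → ℝ)
    (hC : IsClass G C) (hρ : IsStat G C ρ) (hpos : 0 < mean C ρ (f1 G)) (θ : ℝ)
    (hθ : θ * mean C ρ (f2 G) < mean C ρ (f0 G)) :
    AE G C {x : ℤ | ∃ k : ℕ, |(x : ℝ)| ^ θ ≤ |(((T G)^[k] x : ℤ) : ℝ)|} := by
  obtain ⟨h00, h1⟩ := hmean G C ρ hC hρ
  have hlaw' := hlaw G C ρ hC hρ
  set lam := mean C ρ (f1 G) with hlam
  set h := mean C ρ (f2 G) with hh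
  set h0 := mean C ρ (f0 G) with hh0
  rcases lt_or_ge 0 h with hh1 | hh1
  · -- positive entropy
    set δ := h0 - θ * h with hδ
    have hδ0 : 0 < δ := by rw [hδ]; linarith
    obtain ⟨ε, hε0, hε1, hε2, hε3⟩ : ∃ ε : ℝ, 0 < ε ∧ ε ≤ 1 / 2 ∧ ε ≤ h ∧ ε * h0 ≤ δ / 2 := by
      refine ⟨min (1 / 2) (min h (δ / (2 * (h0 + 1)))), ?_, min_le_left _ _,
        (min_le_right _ _).trans (min_le_left _ _), ?_⟩
      · have : 0 < δ / (2 * (h0 + 1)) := by positivity
        positivity
      · have h3 : min (1 / 2) (min h (δ / (2 * (h0 + 1)))) ≤ δ / (2 * (h0 + 1)) :=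
          (min_le_right _ _).trans (min_le_right _ _)
        calc min (1 / 2) (min h (δ / (2 * (h0 + 1)))) * h0 ≤ δ / (2 * (h0 + 1)) * h0 :=
              mul_le_mul_of_nonneg_right h3 h00
          _ ≤ δ / (2 * (h0 + 1)) * (h0 + 1) := by
              apply mul_le_mul_of_nonneg_left (by linarith)
              positivity
          _ = δ / 2 := by
              have : h0 + 1 ≠ 0 := by positivity
              field_simp
    refine AE.mono hC (Real.exp (max 1 (2 * lam * h / δ))) (hlaw' ε hε0) ?_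
    intro x hx hxE
    have hx0 : 0 < |(x : ℝ)| := (Real.exp_pos _).trans_le hx
    set L := Real.log |(x : ℝ)| with hL
    have hL1 : max 1 (2 * lam * h / δ) ≤ L := by
      rw [hL, Real.le_log_iff_exp_le hx0]
      exact hx
    have hL2 : 1 ≤ L := (le_max_left _ _).trans hL1
    have hL3 : 2 * lam * h ≤ L * δ := by
      have := (le_max_right _ _).trans hL1
      rwa [div_le_iff₀ hδ0] at this
    set k := ⌊(1 - ε) * L / h⌋₊ with hk
    have hq0 : 0 ≤ (1 - ε) * L / h := by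
      apply div_nonneg _ hh1.le
      apply mul_nonneg <;> linarith
    have hk1 : (k : ℝ) ≤ (1 - ε) * L / h := Nat.floor_le hq0
    have hk2 : (1 - ε) * L / h < k + 1 := Nat.lt_floor_add_one _
    have hk1' : (k : ℝ) * h ≤ (1 - ε) * L := by rwa [le_div_iff₀ hh1] at hk1
    have hk2' : (1 - ε) * L < (k + 1) * h := by rwa [div_lt_iff₀ hh1] at hk2
    have hk3 : ε * k ≤ L := by
      calc ε * k ≤ h * k := mul_le_mul_of_nonneg_right hε2 (Nat.cast_nonneg _)
        _ = k * h := mul_comm _ _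
        _ ≤ (1 - ε) * L := hk1'
        _ ≤ L := by nlinarith
    obtain ⟨hne, hab⟩ := hxE k hk1' hk3
    refine ⟨k, rpow_le_of_log θ hx0 hne ?_⟩
    rw [abs_le] at hab
    have h5 : (1 - ε) * L + k * lam ≤ Real.log |(((T G)^[k] x : ℤ) : ℝ)| := by linarith [hab.1]
    refine le_trans ?_ h5
    have h6 : θ * L * h ≤ ((1 - ε) * L + k * lam) * h := by
      have e1 : ((1 - ε) * L - h) * lam ≤ (k * h) * lam :=
        mul_le_mul_of_nonneg_right (by linarith) hpos.le
      have e2 : ε * h0 * L ≤ δ / 2 * L := mul_le_mul_of_nonneg_right hε3 (by linarith)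
      have e3 : h0 = lam + h := by linarith
      have e4 : ((1 - ε) * L + k * lam) * h = (1 - ε) * L * h + (k * h) * lam := by ring
      rw [e4]
      have e5 : (1 - ε) * L * h + ((1 - ε) * L - h) * lam = L * h0 - ε * h0 * L - lam * h := by
        rw [e3]; ring
      have e6 : θ * L * h = L * h0 - L * δ := by rw [hδ]; ring
      rw [e6]
      linarith
    exact le_of_mul_le_mul_right h6 hh1
  · -- no constraint
    obtain ⟨ε, hε0, hε1, hε2⟩ : ∃ ε : ℝ, 0 < ε ∧ ε ≤ 1 / 2 ∧ 2 * ε * |θ| ≤ lam := by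
      refine ⟨min (1 / 2) (lam / (2 * (|θ| + 1))), ?_, min_le_left _ _, ?_⟩
      · have : 0 < lam / (2 * (|θ| + 1)) := by positivity
        positivity
      · have h3 : min (1 / 2) (lam / (2 * (|θ| + 1))) ≤ lam / (2 * (|θ| + 1)) := min_le_right _ _
        rw [le_div_iff₀ (by positivity)] at h3
        have h4 : 0 < min (1 / 2) (lam / (2 * (|θ| + 1))) := by
          have : 0 < lam / (2 * (|θ| + 1)) := by positivity
          positivity
        nlinarith
    refine AE.mono hC (Real.exp 1) (hlaw' ε hε0) ?_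
    intro x hx hxE
    have hx0 : 0 < |(x : ℝ)| := (Real.exp_pos _).trans_le hx
    set L := Real.log |(x : ℝ)| with hL
    have hL2 : 1 ≤ L := by
      rw [hL, Real.le_log_iff_exp_le hx0]
      exact hx
    set k := ⌊L / ε⌋₊ with hk
    have hk1 : (k : ℝ) ≤ L / ε := Nat.floor_le (by positivity)
    have hk2 : L / ε < k + 1 := Nat.lt_floor_add_one _
    have hk1' : (k : ℝ) * ε ≤ L := by rwa [le_div_iff₀ hε0] at hk1
    have hk2' : L < (k + 1) * ε := by rwa [div_lt_iff₀ hε0] at hk2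
    have hk4 : (k : ℝ) * h ≤ (1 - ε) * L := by
      have e1 : (k : ℝ) * h ≤ 0 := mul_nonpos_of_nonneg_of_nonpos (Nat.cast_nonneg _) hh1
      have e2 : 0 ≤ (1 - ε) * L := mul_nonneg (by linarith) (by linarith)
      linarith
    obtain ⟨hne, hab⟩ := hxE k hk4 (by linarith)
    refine ⟨k, rpow_le_of_log θ hx0 hne ?_⟩
    rw [abs_le] at hab
    have h5 : (1 - ε) * L + k * lam ≤ Real.log |(((T G)^[k] x : ℤ) : ℝ)| := by linarith [hab.1]
    refine le_trans ?_ h5
    have e1 : θ * L ≤ |θ| * L := mul_le_mul_of_nonneg_right (le_abs_self θ) (by linarith)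
    have e2 : |θ| * L ≤ k * lam := by
      -- L < (k+1) ε and k ≥ 1, so L < 2 k ε
      have e3 : L ≤ 2 * (k * ε) := by
        have : L - ε < k * ε := by linarith
        linarith
      calc |θ| * L ≤ |θ| * (2 * (k * ε)) := mul_le_mul_of_nonneg_left e3 (abs_nonneg θ)
        _ = k * (2 * ε * |θ|) := by ring
        _ ≤ k * lam := mul_le_mul_of_nonneg_left hε2 (Nat.cast_nonneg _)
    have e4 : 0 ≤ (1 - ε) * L := mul_nonneg (by linarith) (by linarith)
    linarith

end Pool.Agent.Helper68.LGC
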